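import Pool.Agent.R889.PZ.UEx

/-!
Cyclic invariance of the geometric coincidence condition and the zero-one law for uniformly Pisot
families.
-/

set_option autoImplicit false

namespace Pool.Agent.U55.PZ
open Pool.Agent.H812R2.PI Pool.Agent.TH100.Pisot Pool.Agent.R889.PZ
open scoped BigOperators

variable {m : ℕ} {ι : Type}

/-- `(T S)^(n+1) = T (S T)^n S` -/
theorem iter_cyc (S T : Fin (m+1) → List (Fin (m+1))) (n : ℕ) :
    comp T (comp (iter (comp S T) n) S) = iter (comp T S) (n + 1) := by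
  induction n with
  | zero =>
    have h0 : iter (comp S T) 0 = fun a => [a] := by funext a; exact iter_zero _ a
    have h1 : comp (fun a : Fin (m+1) => [a]) S = S := by
      funext a
      simp [comp, ext]
    rw [h0, h1]
    funext a
    rw [iter_succ, iter_zero]
    simp [ext]
  | succ n ih =>
    have h1 : iter (comp S T) (n + 1) = comp (comp S T) (iter (comp S T) n) := by
      funext a
      rw [iter_succ]
      rfl
    have h2 : iter (comp T S) (n + 1 + 1) = comp (comp T S) (iter (comp T S) (n + 1)) := by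
      funext a
      rw [iter_succ]
      rfl
    rw [h1, h2, ← ih]
    simp only [comp_assoc]

theorem inc_single : inc (fun a : Fin (m+1) => [a]) = 1 := JComp_inc_id

/-- cyclic invariance -/
theorem coinc_cyc (S T : Fin (m+1) → List (Fin (m+1))) (hS : ∀ a, S a ≠ []) (hT : ∀ a, T a ≠ [])
    (h : Coinc (comp S T)) : Coinc (comp T S) := by
  obtain ⟨lam, ell, hpos, hell, hg⟩ := h
  have hell' : ra ell (inc (comp S T)) = fun j => lam * ell j := funext hell
  have hposS : ∀ a, 0 < ra ell (inc S) a := by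
    intro a
    obtain ⟨c, w, hc⟩ := List.exists_cons_of_ne_nil (hS a)
    refine Finset.sum_pos' (fun i _ => mul_nonneg (hpos i).le ?_) ⟨c, Finset.mem_univ _, ?_⟩
    · exact_mod_cast inc_nonneg S i a
    · refine mul_pos (hpos c) ?_
      have : 0 < (S a).count c := List.count_pos_iff.2 (by rw [hc]; exact List.mem_cons_self ..)
      simp only [inc]
      exact_mod_cast this
  refine ⟨lam, ra ell (inc S), hposS, ?_, ?_⟩
  · have h1 : ra (ra ell (inc S)) (inc (comp T S)) = fun j => lam * ra ell (inc S) j := by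
      rw [inc_comp, ra_mul, ← ra_mul ell, ← inc_comp, hell']
      funext j
      unfold ra
      rw [Finset.mul_sum]
      exact Finset.sum_congr rfl fun i _ => by ring
    exact congrFun h1
  · intro a b v hO
    obtain ⟨e, he, e', he', ho⟩ := ov_step ell S a b v hO
    obtain ⟨n, x, hx1, hx2⟩ := hg e.2 e'.2 (e'.1 - e.1) ho
    rw [← inc_iter] at hx2
    have h1 := JComp_mem0 (S := iter (comp S T) n) (T := S) he hx1
    have h2 := JComp_mem1 (S := iter (comp S T) n) (T := S) (g := e) he' hx2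
    obtain ⟨y, hy1, hy2⟩ := persist (S := T) (T := comp (iter (comp S T) n) S) hT
      (a := a) (b := b) (v := v) ⟨_, h1, h2⟩
    rw [iter_cyc] at hy1 hy2
    exact ⟨n + 1, y, hy1, by rw [← inc_iter]; exact hy2⟩

theorem coinc_cyc_iff (S T : Fin (m+1) → List (Fin (m+1))) (hS : ∀ a, S a ≠ [])
    (hT : ∀ a, T a ≠ []) : Coinc (comp S T) ↔ Coinc (comp T S) :=
  ⟨coinc_cyc S T hS hT, coinc_cyc T S hT hS⟩

/-- roots -/
theorem coinc_root (σ : Fin (m+1) → List (Fin (m+1))) (hne : ∀ n a, iter σ n a ≠ []) (Q : ℕ)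
    (hM : PisotMat (inc (iter σ Q))) (h : Coinc (iter σ Q)) : Coinc σ := by
  obtain ⟨lam, u, hlam, hu, hs⟩ := exists_u _ (inc_nonneg _) hM
  obtain ⟨P, -, -⟩ := exists_PD _ (inc_nonneg _) hM lam hlam u hu hs
  obtain ⟨lam', ell, hpos, hell, hg⟩ := h
  obtain ⟨κ, hκ, hκe⟩ := ell_unique P ell lam' hpos hell
  have hell' : ra ell (inc (iter σ Q)) = fun j => lam' * ell j := funext hell
  have hσ1 : ∀ a, σ a ≠ [] := by
    intro a
    have := hne 1 a
    rw [iter_succ, iter_zero] at this
    simpa [ext] using this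
  have hpos2 : ∀ a, 0 < ra ell (inc σ) a := by
    intro a
    obtain ⟨c, w, hc⟩ := List.exists_cons_of_ne_nil (hσ1 a)
    refine Finset.sum_pos' (fun i _ => mul_nonneg (hpos i).le ?_) ⟨c, Finset.mem_univ _, ?_⟩
    · exact_mod_cast inc_nonneg σ i a
    · refine mul_pos (hpos c) ?_
      have : 0 < (σ a).count c := List.count_pos_iff.2 (by rw [hc]; exact List.mem_cons_self ..)
      simp only [inc]
      exact_mod_cast this
  have h2 : ra (ra ell (inc σ)) (inc (iter σ Q)) = fun j => lam' * ra ell (inc σ) j := by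
    have h3 : inc σ * inc (iter σ Q) = inc (iter σ Q) * inc σ := by
      rw [inc_iter, ← pow_succ, ← pow_succ']
    rw [← ra_mul, h3, ra_mul, hell']
    funext j
    unfold ra
    rw [Finset.mul_sum]
    exact Finset.sum_congr rfl fun i _ => by ring
  obtain ⟨κ', hκ', hκe'⟩ := ell_unique P (ra ell (inc σ)) lam' hpos2 (congrFun h2)
  refine ⟨κ' / κ, ell, hpos, fun j => ?_, ?_⟩
  · have h4 := hκe' j
    have h5 := hκe j
    have h6 : ra ell (inc σ) j = κ' / κ * ell j := by
      rw [h4, h5]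
      field_simp
    exact h6
  · intro a b v hO
    obtain ⟨n, e, he1, he2⟩ := hg a b v hO
    refine ⟨Q * n, e, ?_, ?_⟩
    · rw [Pool.Agent.Y316.Pisot.iter_iter] at he1
      exact he1
    · rw [Pool.Agent.Y316.Pisot.iter_iter, inc_iter, ← pow_mul] at he2
      exact he2

/-- the property of a word `w` in a family: the composition is a unimodular irreducible Pisot
substitution with geometric coincidences and it is semi-conjugate to a toral translation -/
def GoodWord (F : ι → Fin (m+1) → List (Fin (m+1))) (w : List ι) : Prop :=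
  PisotMat (inc (compList (w.map F))) ∧ Coinc (compList (w.map F)) ∧
    SemiConjToral (compList (w.map F))

/-- long words are unimodular Pisot -/
theorem word_pisot [Fintype ι] (hm : 1 ≤ m) (F : ι → Fin (m+1) → List (Fin (m+1)))
    (hdet : ∀ i, (inc (F i)).det = 1 ∨ (inc (F i)).det = -1) (hU : UnifPisot F) :
    ∃ L : ℕ, ∀ w : List ι, L ≤ w.length → PisotMat (inc (compList (w.map F))) := by
  obtain ⟨κ, E, Q, L, hQ0, hE, hQ, hL, hblk⟩ := word_blocks hm F hdet hU
  refine ⟨L, fun w hw => ?_⟩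
  obtain ⟨ws, hne, hws, hv⟩ := decomp L hL _ w rfl hw
  have h1 : compList (w.map F) = compList (ws.map fun v => compList (v.map F)) := by
    conv_lhs => rw [hws]
    exact comp_flatten F ws
  have hl : ∀ τ ∈ ws.map fun v => compList (v.map F), Blk κ E Q τ := by
    intro τ hτ
    obtain ⟨v, hvm, rfl⟩ := List.mem_map.1 hτ
    exact hblk v (hv v hvm).1 (hv v hvm).2
  have hne' : (ws.map fun v => compList (v.map F)) ≠ [] := by simpa using hne
  have hκ : 1 ≤ κ := by
    obtain ⟨x, hx⟩ := List.exists_mem_of_ne_nil _ hne'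
    exact ((hl x hx).cmp (fun _ => 1) (fun _ => one_pos)).one_le
  rw [h1]
  refine list_pisot hQ hκ _ hl hne' fun τ hτ => ?_
  obtain ⟨v, hvm, rfl⟩ := List.mem_map.1 hτ
  exact word_det F hdet v

theorem word_pow [Fintype ι] (hm : 1 ≤ m) (F : ι → Fin (m+1) → List (Fin (m+1)))
    (hdet : ∀ i, (inc (F i)).det = 1 ∨ (inc (F i)).det = -1) (hU : UnifPisot F) (w : List ι)
    (hw : w ≠ []) (q : ℕ) (hq : 1 ≤ q) :
    Coinc (compList (((List.replicate q w).flatten).map F)) ↔ Coinc (compList (w.map F)) := by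
  obtain ⟨L, hL⟩ := word_pisot hm F hdet hU
  have hne : ∀ n a, iter (compList (w.map F)) n a ≠ [] := by
    intro n a
    rw [iter_word]
    exact word_ne_nil F hdet _ a
  rw [← iter_word]
  refine ⟨fun h => ?_, fun h => coinc_iter hne h q hq⟩
  have h1 : Coinc (iter (iter (compList (w.map F)) q) (L + 1)) := by
    refine coinc_iter (fun n a => ?_) h (L + 1) (Nat.succ_pos L)
    rw [Pool.Agent.Y316.Pisot.iter_iter]
    exact hne _ a
  have h2 : iter (iter (compList (w.map F)) q) (L + 1) =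
      iter (compList (w.map F)) (q * (L + 1)) := by
    funext a
    exact Pool.Agent.Y316.Pisot.iter_iter _ _ _ a
  rw [h2] at h1
  refine coinc_root _ hne (q * (L + 1)) ?_ h1
  rw [iter_word]
  refine hL _ (le_trans ?_ (flatten_replicate_length w hw _))
  nlinarith

theorem word_cyc (F : ι → Fin (m+1) → List (Fin (m+1)))
    (hdet : ∀ i, (inc (F i)).det = 1 ∨ (inc (F i)).det = -1) (u v : List ι) :
    Coinc (compList ((u ++ v).map F)) ↔ Coinc (compList ((v ++ u).map F)) := by
  rw [comp_map_append, comp_map_append]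
  exact coinc_cyc_iff _ _ (word_ne_nil F hdet u) (word_ne_nil F hdet v)

open Classical in
/-- prefixes of random words -/
theorem prefix_law {α : Type} [Fintype α] (p : α → ℝ) (hp : ∀ i, 0 < p i) (hs : ∑ i, p i = 1)
    (W : List α) (hW : W ≠ []) (G : List α → Prop) (hG : ∀ l₁ l₂ : List α, G (l₁ ++ W ++ l₂)) :
    ∃ C c : ℝ, 0 < c ∧ ∀ n j : ℕ,
      ∑ f : Fin (n + j) → α, (if ∀ k, n ≤ k → k ≤ n + j → G ((List.ofFn f).take k) then 0
        else ∏ i, p (f i)) ≤ C * Real.exp (-(c * n)) := by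
  obtain ⟨C, c, hc, h⟩ := wt_exp p hp hs W hW
  refine ⟨C, c, hc, fun n j => le_trans ?_ (h n)⟩
  have h1 : ∑ h : Fin j → α, ∏ i, p (h i) = 1 := by
    rw [← Fintype.sum_pow, hs, one_pow]
  have hpr : ∀ {n : ℕ} (f : Fin n → α), 0 ≤ ∏ i, p (f i) := fun f =>
    Finset.prod_nonneg fun i _ => (hp _).le
  have hterm : ∀ (g : Fin n → α) (h : Fin j → α),
      (if ∀ k, n ≤ k → k ≤ n + j → G ((List.ofFn (Fin.append g h)).take k) then (0:ℝ)
        else ∏ i, p (Fin.append g h i)) ≤
        (if Has W g then 0 else ∏ i, p (g i)) * ∏ i, p (h i) := by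
    intro g h
    by_cases hg : Has W g
    · rw [if_pos hg, zero_mul, if_pos]
      intro k hk _
      obtain ⟨l₁, l₂, e⟩ := hg
      rw [List.ofFn_fin_append, List.take_append, List.length_ofFn,
        List.take_of_length_le (by rw [List.length_ofFn]; exact hk), e]
      have h3 := hG l₁ (l₂ ++ List.take (k - n) (List.ofFn h))
      simpa [List.append_assoc] using h3
    · rw [if_neg hg]
      have h3 : ∏ i, p (Fin.append g h i) = (∏ i, p (g i)) * ∏ j, p (h j) := by
        rw [Fin.prod_univ_add]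
        simp [Fin.append_left, Fin.append_right]
      split_ifs
      · exact mul_nonneg (hpr _) (hpr _)
      · rw [h3]
  have h4 : wt p W n = ∑ g : Fin n → α, ∑ h : Fin j → α,
      (if Has W g then 0 else ∏ i, p (g i)) * ∏ i, p (h i) := by
    unfold wt
    refine Finset.sum_congr rfl fun g _ => ?_
    rw [← Finset.mul_sum, h1, mul_one]
  rw [h4, ← Finset.sum_product', Finset.univ_product_univ]
  refine le_trans (le_of_eq ((Fin.appendEquiv n j).sum_comp
    (fun f => if ∀ k, n ≤ k → k ≤ n + j → G ((List.ofFn f).take k) then (0:ℝ)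
      else ∏ i, p (f i))).symm) ?_
  exact Finset.sum_le_sum fun x _ => hterm x.1 x.2

/-- block families are uniformly Pisot, uniformly in the index type -/
theorem unif_of_blocks_all {M : Matrix (Fin (m+1)) (Fin (m+1)) ℤ} (P : PD M) (T : ℕ) (B : ℝ) :
    ∃ K : ℕ, ∀ (ι : Type) (F : ι → Fin (m+1) → List (Fin (m+1))),
      (∀ i, ∃ (ρ τ : Fin (m+1) → List (Fin (m+1))) (k : ℕ), F i = comp ρ τ ∧
        (inc ρ).det ≠ 0 ∧ (∀ a, (ρ a).length ≤ T) ∧ K ≤ k ∧ τ ∈ SubSet P.u (M ^ k) B) →
      UnifPisot F := by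
  obtain ⟨κ₀, hκ₀, h1⟩ := blk_sub P T (P.c * |B|)
  obtain ⟨E₀, hE₀, h2⟩ := h1 κ₀ le_rfl
  obtain ⟨K, hK⟩ := h2 E₀ le_rfl 1
  refine ⟨K, fun ι F hF => ?_⟩
  have hb : ∀ i, Blk κ₀ E₀ 1 (F i) := by
    intro i
    obtain ⟨ρ, τ, k, h3, h4, h5, h6, h7⟩ := hF i
    rw [h3]
    exact hK k h6 ρ h4 h5 τ h7.1 fun a j =>
      GFin_dis_N P |B| (abs_nonneg B) _ ((h7.2 a j).trans (sq_abs B).ge)
  have hbl : ∀ w : List ι, ∀ τ ∈ w.map F, Blk κ₀ E₀ 1 τ := by
    intro w τ hτ
    obtain ⟨i, -, rfl⟩ := List.mem_map.1 hτ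
    exact hb i
  refine ⟨⟨1, fun w hw i j => ?_⟩, 1, 1 / 2, by norm_num, by norm_num, fun w z h1 h2 => ?_⟩
  · have h3 := list_big one_pos (w.map F) (hbl w) (by
      intro h
      rw [List.map_eq_nil_iff.1 h] at hw
      simp at hw) i j
    have h4 : (0:ℝ) < ((inc (compList (w.map F)) i j : ℤ) : ℝ) := by linarith
    exact_mod_cast h4
  · obtain ⟨f, hf, hf0⟩ := exists_orth _ h1 h2
    rw [← pa_ra] at hf0
    have h3 := list_con_exp (w.map F) (hbl w) f hf z hf0
    rw [List.length_map] at h3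
    rw [one_mul]
    exact h3

end Pool.Agent.U55.PZ
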